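import Pool.Agent.H.MP_08eaf3_pr.Sys.Basic

/-!
Replica systems of Gaussian features, extension of a replica system by an independent Gaussian vector.
-/

set_option autoImplicit false

open MeasureTheory ProbabilityTheory Filter Topology Matrix

namespace SKC

/-- the replica system with the Gibbs weights `gw v a` -/
noncomputable def RS.ofFeat {N : ℕ} {ι : Type} [Fintype ι] (v : Cfg (Fin 2) N → ι → ℝ)
    (a : Cfg (Fin 2) N → ℝ) : RS N where
  X := ι → ℝ
  ms := inferInstance
  mu := gam ι
  pr := inferInstance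
  G := fun x ρ => gw v a x ρ
  meas := fun ρ => (gw_continuous v a ρ).measurable
  nonneg := fun x ρ => gw_nonneg v a x ρ
  sum_one := fun x => gw_sum v a x

/-- the averages of this system are the quenched averages -/
theorem RS.av_ofFeat {N n : ℕ} {ι : Type} [Fintype ι] (v : Cfg (Fin 2) N → ι → ℝ)
    (a : Cfg (Fin 2) N → ℝ) (f : (Fin n → Cfg (Fin 2) N) → ℝ) :
    (RS.ofFeat v a).av f = GA v a f := rfl

/-- extension of the disorder by an independent standard Gaussian vector; the Gibbs weights do not change -/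
noncomputable def RS.ext {N : ℕ} (S : RS N) (ι : Type) [Fintype ι] : RS N where
  X := S.X × (ι → ℝ)
  ms := inferInstance
  mu := S.mu.prod (gam ι)
  pr := inferInstance
  G := fun x ρ => S.G x.1 ρ
  meas := fun ρ => (S.meas ρ).comp measurable_fst
  nonneg := fun x ρ => S.nonneg x.1 ρ
  sum_one := fun x => S.sum_one x.1

/-- The averages of functions of the replicas do not change. Proof: `integral_fun_fst` (or
`integral_prod` with `integrable_inner'`); the second measure is a probability measure. -/
theorem RS.av_ext {N n : ℕ} (S : RS N) (ι : Type) [Fintype ι] (f : (Fin n → Cfg (Fin 2) N) → ℝ) :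
    (S.ext ι).av f = S.av f := by
  unfold RS.av RS.avx
  show ∫ x : S.X × (ι → ℝ), ∑ r : Fin n → Cfg (Fin 2) N, (∏ l, S.G x.1 (r l)) * f r
      ∂(S.mu.prod (gam ι)) = _
  rw [integral_fun_fst (fun x : S.X => ∑ r : Fin n → Cfg (Fin 2) N, (∏ l, S.G x (r l)) * f r)]
  simp

/-- Averages of functions of the Gaussian vector and the replicas: first average over the Gaussian vector.
Proof: exchange the finite sum and the integral; each term is `∫ (∏ l, S.G x.1 (r l)) * f x.2 r` over a
product measure (`integral_prod_mul`). -/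
theorem RS.avx_ext {N n : ℕ} (S : RS N) (ι : Type) [Fintype ι]
    (f : (ι → ℝ) → (Fin n → Cfg (Fin 2) N) → ℝ) (hf : ∀ r, Integrable (fun y => f y r) (gam ι)) :
    (S.ext ι).avx (fun x r => f x.2 r) = S.av (fun r => ∫ y, f y r ∂(gam ι)) := by
  unfold RS.av RS.avx
  show ∫ x : S.X × (ι → ℝ), ∑ r : Fin n → Cfg (Fin 2) N, (∏ l, S.G x.1 (r l)) * f x.2 r
      ∂(S.mu.prod (gam ι)) = _
  have hm : ∀ r : Fin n → Cfg (Fin 2) N, Measurable (fun x : S.X => ∏ l, S.G x (r l)) :=
    fun r => Finset.measurable_prod _ (fun l _ => S.meas (r l))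
  have hle : ∀ (x : S.X) (ρ : Cfg (Fin 2) N), S.G x ρ ≤ 1 := by
    intro x ρ
    rw [← S.sum_one x]
    exact Finset.single_le_sum (fun ρ' _ => S.nonneg x ρ') (Finset.mem_univ ρ)
  have hi : ∀ r : Fin n → Cfg (Fin 2) N, Integrable (fun x : S.X => ∏ l, S.G x (r l)) S.mu := by
    intro r
    refine Integrable.of_bound (hm r).aestronglyMeasurable 1 (Filter.Eventually.of_forall ?_)
    intro x
    rw [Real.norm_eq_abs, abs_of_nonneg (Finset.prod_nonneg fun l _ => S.nonneg x _)]
    exact Finset.prod_le_one (fun l _ => S.nonneg x _) (fun l _ => hle x _)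
  rw [integral_finsetSum _ (fun r _ => (hi r).mul_prod (hf r)),
    integral_finsetSum _ (fun r _ => (hi r).mul_const _)]
  refine Finset.sum_congr rfl fun r _ => ?_
  rw [integral_prod_mul (fun x : S.X => ∏ l, S.G x (r l)) (fun y => f y r), integral_mul_const]

end SKC
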