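import Pool.Agent.H.MP_08eaf3_pr.Sys

/-!
Overlap matrices of configurations.
-/

set_option autoImplicit false

open MeasureTheory ProbabilityTheory Filter Topology Matrix

namespace SKC

theorem Ov_abs_sg (b : Bool) : |sg b| = 1 := by
  cases b <;> simp [sg]

theorem Ov_sg_sq (b : Bool) : sg b * sg b = 1 := by
  cases b <;> simp [sg]

/-- overlaps are bounded by one (also for `N = 0`, where they are `0`) -/
theorem abs_ovM_le {N : ℕ} (ρ ρ' : Cfg (Fin 2) N) (c c' : Fin 2) : |ovM ρ ρ' c c'| ≤ 1 := by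
  unfold ovM ov
  rw [abs_div]
  have h1 : |∑ i, sg (ρ i c) * sg (ρ' i c')| ≤ (N : ℝ) := by
    refine (Finset.abs_sum_le_sum_abs _ _).trans ?_
    have : ∀ i : Fin N, |sg (ρ i c) * sg (ρ' i c')| = 1 := by
      intro i
      rw [abs_mul, Ov_abs_sg, Ov_abs_sg, one_mul]
    simp [this]
  have h2 : |(N : ℝ)| = N := abs_of_nonneg (Nat.cast_nonneg N)
  rw [h2]
  exact div_le_one_of_le₀ h1 (Nat.cast_nonneg N)

/-- self overlaps of one spin system are one -/
theorem ovM_self {N : ℕ} (hN : 0 < N) (ρ : Cfg (Fin 2) N) (c : Fin 2) : ovM ρ ρ c c = 1 := by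
  unfold ovM ov
  have : ∀ i : Fin N, sg (ρ i c) * sg (ρ i c) = 1 := fun i => Ov_sg_sq _
  have hN' : (N : ℝ) ≠ 0 := by exact_mod_cast hN.ne'
  simp [this, hN']

/-- transposition of the overlap matrix -/
theorem ovM_swap {N : ℕ} (ρ ρ' : Cfg (Fin 2) N) (c c' : Fin 2) : ovM ρ ρ' c c' = ovM ρ' ρ c' c := by
  unfold ovM ov
  congr 1
  refine Finset.sum_congr rfl ?_
  intro i _
  exact mul_comm _ _

/-- Gram property: for finitely many configurations `r j` and coefficients `a j c` the quadratic form of the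
overlaps is nonnegative. Proof: it is `(1/N) ∑ i, (∑ j, ∑ c, a j c * sg (r j i c))^2`. -/
theorem ovM_gram {N : ℕ} {J : Type} [Fintype J] (r : J → Cfg (Fin 2) N) (a : J → Fin 2 → ℝ) :
    0 ≤ ∑ j, ∑ c, ∑ j', ∑ c', a j c * a j' c' * ovM (r j) (r j') c c' := by
  have key : ∑ j, ∑ c, ∑ j', ∑ c', a j c * a j' c' * ovM (r j) (r j') c c' =
      (∑ i, (∑ j, ∑ c, a j c * sg (r j i c)) ^ 2) / N := by
    have e1 : ∀ i : Fin N, (∑ j, ∑ c, a j c * sg (r j i c)) ^ 2 =
        ∑ j, ∑ c, ∑ j', ∑ c', a j c * a j' c' * (sg (r j i c) * sg (r j' i c')) := by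
      intro i
      rw [sq, Finset.sum_mul]
      refine Finset.sum_congr rfl ?_
      intro j _
      rw [Finset.sum_mul]
      refine Finset.sum_congr rfl ?_
      intro c _
      rw [Finset.mul_sum]
      refine Finset.sum_congr rfl ?_
      intro j' _
      rw [Finset.mul_sum]
      refine Finset.sum_congr rfl ?_
      intro c' _
      ring
    simp only [e1]
    symm
    rw [Finset.sum_comm, Finset.sum_div]
    refine Finset.sum_congr rfl ?_
    intro j _
    rw [Finset.sum_comm, Finset.sum_div]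
    refine Finset.sum_congr rfl ?_
    intro c _
    rw [Finset.sum_comm, Finset.sum_div]
    refine Finset.sum_congr rfl ?_
    intro j' _
    rw [Finset.sum_comm, Finset.sum_div]
    refine Finset.sum_congr rfl ?_
    intro c' _
    change _ = a j c * a j' c' * ((∑ i, sg (r j i c) * sg (r j' i c')) / N)
    rw [← Finset.mul_sum, mul_div_assoc]
  rw [key]
  exact div_nonneg (Finset.sum_nonneg fun i _ => sq_nonneg _) (Nat.cast_nonneg N)

end SKC
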