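import Pool.Agent.H.MP_08eaf3_pr.Sys

/-!
Limits along ultrafilters.
-/

set_option autoImplicit false

open MeasureTheory ProbabilityTheory Filter Topology Matrix

namespace SKC

section Ul

variable {I : Type} (U : Ultrafilter I)

/-- A family of reals which is bounded along the ultrafilter converges to `ul U a`.
Proof: the map of `U` contains the compact set `Icc (-C) C`, so it converges
(`IsCompact.ultrafilter_le_nhds`); `tendsto_nhds_limUnder`. -/
theorem tendsto_ul (a : I → ℝ) (C : ℝ) (ha : ∀ᶠ i in (U : Filter I), |a i| ≤ C) :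
    Tendsto a U (𝓝 (ul U a)) := by
  have hmap : ((U.map a : Ultrafilter ℝ) : Filter ℝ) ≤ 𝓟 (Set.Icc (-C) C) := by
    rw [le_principal_iff, Ultrafilter.coe_map, mem_map]
    filter_upwards [ha] with i hi
    exact abs_le.mp hi
  obtain ⟨x, -, hx⟩ := (isCompact_Icc (a := -C) (b := C)).ultrafilter_le_nhds (U.map a) hmap
  have h2 : Tendsto a U (𝓝 x) := by
    rw [Ultrafilter.coe_map] at hx
    exact hx
  exact tendsto_nhds_limUnder ⟨x, h2⟩

/-- The limit is determined by convergence. Proof: `Tendsto.limUnder_eq`. -/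
theorem ul_eq (a : I → ℝ) (L : ℝ) (h : Tendsto a U (𝓝 L)) : ul U a = L := by
  exact h.limUnder_eq

/-- constants -/
theorem ul_const (c : ℝ) : ul U (fun _ => c) = c := by
  exact ul_eq U _ c tendsto_const_nhds

/-- eventually equal families have the same limit -/
theorem ul_congr (a b : I → ℝ) (h : ∀ᶠ i in (U : Filter I), a i = b i) : ul U a = ul U b := by
  have h2 : Filter.map a (U : Filter I) = Filter.map b (U : Filter I) := Filter.map_congr h
  unfold ul limUnder
  rw [h2]

/-- sums -/
theorem ul_add (a b : I → ℝ) (C : ℝ) (ha : ∀ i, |a i| ≤ C) (hb : ∀ i, |b i| ≤ C) :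
    ul U (fun i => a i + b i) = ul U a + ul U b := by
  exact ul_eq U _ _ ((tendsto_ul U a C (Eventually.of_forall ha)).add
    (tendsto_ul U b C (Eventually.of_forall hb)))

/-- differences -/
theorem ul_sub (a b : I → ℝ) (C : ℝ) (ha : ∀ i, |a i| ≤ C) (hb : ∀ i, |b i| ≤ C) :
    ul U (fun i => a i - b i) = ul U a - ul U b := by
  exact ul_eq U _ _ ((tendsto_ul U a C (Eventually.of_forall ha)).sub
    (tendsto_ul U b C (Eventually.of_forall hb)))

/-- products -/
theorem ul_mul (a b : I → ℝ) (C : ℝ) (ha : ∀ i, |a i| ≤ C) (hb : ∀ i, |b i| ≤ C) :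
    ul U (fun i => a i * b i) = ul U a * ul U b := by
  exact ul_eq U _ _ ((tendsto_ul U a C (Eventually.of_forall ha)).mul
    (tendsto_ul U b C (Eventually.of_forall hb)))

/-- scalar multiplication -/
theorem ul_const_mul (c : ℝ) (a : I → ℝ) (C : ℝ) (ha : ∀ i, |a i| ≤ C) :
    ul U (fun i => c * a i) = c * ul U a := by
  exact ul_eq U _ _ ((tendsto_ul U a C (Eventually.of_forall ha)).const_mul c)

/-- monotonicity -/
theorem ul_mono (a b : I → ℝ) (C : ℝ) (ha : ∀ i, |a i| ≤ C) (hb : ∀ i, |b i| ≤ C)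
    (h : ∀ᶠ i in (U : Filter I), a i ≤ b i) : ul U a ≤ ul U b := by
  exact le_of_tendsto_of_tendsto (tendsto_ul U a C (Eventually.of_forall ha))
    (tendsto_ul U b C (Eventually.of_forall hb)) h

/-- bound -/
theorem abs_ul_le (a : I → ℝ) (C : ℝ) (ha : ∀ i, |a i| ≤ C) : |ul U a| ≤ C := by
  exact le_of_tendsto (tendsto_ul U a C (Eventually.of_forall ha)).abs
    (Eventually.of_forall ha)

/-- nonnegativity -/
theorem ul_nonneg (a : I → ℝ) (C : ℝ) (ha : ∀ i, |a i| ≤ C) (h : ∀ i, 0 ≤ a i) : 0 ≤ ul U a := by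
  exact ge_of_tendsto (tendsto_ul U a C (Eventually.of_forall ha)) (Eventually.of_forall h)

/-- If the limit is positive the family is eventually positive, more precisely larger than any smaller number. -/
theorem eventually_of_lt_ul (a : I → ℝ) (C c : ℝ) (ha : ∀ i, |a i| ≤ C) (h : c < ul U a) :
    ∀ᶠ i in (U : Filter I), c < a i := by
  exact (tendsto_ul U a C (Eventually.of_forall ha)).eventually_const_lt h

/-- If the limit is smaller than `c` the family is eventually smaller than `c`. -/
theorem eventually_of_ul_lt (a : I → ℝ) (C c : ℝ) (ha : ∀ i, |a i| ≤ C) (h : ul U a < c) :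
    ∀ᶠ i in (U : Filter I), a i < c := by
  exact (tendsto_ul U a C (Eventually.of_forall ha)).eventually_lt_const h

end Ul

end SKC
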