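import Pool.Agent.H.MP_08eaf3_pr.Sys.Rs1

/-!
Averages of replica systems `RS`: Cauchy-Schwarz.
-/

set_option autoImplicit false

open MeasureTheory ProbabilityTheory Filter Topology Matrix

namespace SKC

namespace RS

variable {N : ℕ} (S : RS N)

/-- Cauchy-Schwarz. Proof: for real `t`, `0 ≤ av ((f - t g)^2) = av f^2 - 2 t av (f g) + t^2 av g^2`;
discriminant (`discrim_le_zero`), or `inner_mul_le_norm_mul_norm`. -/
theorem av_cs {n : ℕ} (f g : (Fin n → Cfg (Fin 2) N) → ℝ) :
    (S.av (fun r => f r * g r)) ^ 2 ≤ S.av (fun r => f r ^ 2) * S.av (fun r => g r ^ 2) := by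
  have h : ∀ t : ℝ, 0 ≤ S.av (fun r => g r ^ 2) * (t * t) + (-2 * S.av (fun r => f r * g r)) * t +
      S.av (fun r => f r ^ 2) := by
    intro t
    have h1 : 0 ≤ S.av (fun r => (f r - t * g r) ^ 2) := S.av_nonneg _ fun r => sq_nonneg _
    have h2 : (fun r => (f r - t * g r) ^ 2) =
        fun r => ((f r ^ 2 + (-2 * t) * (f r * g r)) + (t * t) * g r ^ 2) := by
      funext r
      ring
    rw [h2, S.av_add (fun r => f r ^ 2 + (-2 * t) * (f r * g r)) (fun r => (t * t) * g r ^ 2),
      S.av_add (fun r => f r ^ 2) (fun r => (-2 * t) * (f r * g r)),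
      S.av_const_mul (-2 * t) (fun r => f r * g r), S.av_const_mul (t * t) (fun r => g r ^ 2)] at h1
    linarith
  have h3 := discrim_le_zero h
  unfold discrim at h3
  nlinarith

/-- Jensen: `(av f)^2 ≤ av f^2`. Proof: `av_cs` with `g = 1`, `av_const`. -/
theorem av_sq_le {n : ℕ} (f : (Fin n → Cfg (Fin 2) N) → ℝ) :
    (S.av f) ^ 2 ≤ S.av (fun r => f r ^ 2) := by
  have h := S.av_cs f (fun _ => 1)
  simp only [mul_one, one_pow] at h
  rw [S.av_const, mul_one] at h
  exact h

end RS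

end SKC
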