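import Pool.Agent.H.MP_08eaf3_pr.Sys.Basic
import Pool.Agent.H.MP_08eaf3_pr.Sys.Ul1

/-!
Families of replica systems.
-/

set_option autoImplicit false

open MeasureTheory ProbabilityTheory Filter Topology Matrix

namespace SKC

namespace Fam

variable (F : Fam)

theorem Fam1_bd {n : ℕ} (f : ∀ i, (Fin n → Cfg (Fin 2) (F.Nn i)) → ℝ) (C : ℝ)
    (hf : ∀ i r, |f i r| ≤ C) (i : F.I) : |(F.S i).av (f i)| ≤ C :=
  RS.abs_av_le (F.S i) (f i) C (hf i)

/-- the limit expectation of bounded functions is a limit -/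
theorem tendsto_E {n : ℕ} (f : ∀ i, (Fin n → Cfg (Fin 2) (F.Nn i)) → ℝ) (C : ℝ)
    (hf : ∀ i r, |f i r| ≤ C) : Tendsto (fun i => (F.S i).av (f i)) F.U (𝓝 (F.E f)) :=
  tendsto_ul F.U _ C (Eventually.of_forall (Fam1_bd F f C hf))

/-- additivity -/
theorem E_add {n : ℕ} (f g : ∀ i, (Fin n → Cfg (Fin 2) (F.Nn i)) → ℝ) (C : ℝ)
    (hf : ∀ i r, |f i r| ≤ C) (hg : ∀ i r, |g i r| ≤ C) :
    F.E (fun i r => f i r + g i r) = F.E f + F.E g := by
  have h1 : (fun i => (F.S i).av (fun r => f i r + g i r)) =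
      fun i => (F.S i).av (f i) + (F.S i).av (g i) := by
    funext i
    exact RS.av_add (F.S i) (f i) (g i)
  unfold Fam.E
  rw [h1]
  exact ul_add F.U _ _ C (Fam1_bd F f C hf) (Fam1_bd F g C hg)

/-- subtraction -/
theorem E_sub {n : ℕ} (f g : ∀ i, (Fin n → Cfg (Fin 2) (F.Nn i)) → ℝ) (C : ℝ)
    (hf : ∀ i r, |f i r| ≤ C) (hg : ∀ i r, |g i r| ≤ C) :
    F.E (fun i r => f i r - g i r) = F.E f - F.E g := by
  have h1 : (fun i => (F.S i).av (fun r => f i r - g i r)) =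
      fun i => (F.S i).av (f i) - (F.S i).av (g i) := by
    funext i
    exact RS.av_sub (F.S i) (f i) (g i)
  unfold Fam.E
  rw [h1]
  exact ul_sub F.U _ _ C (Fam1_bd F f C hf) (Fam1_bd F g C hg)

/-- scalar multiplication -/
theorem E_const_mul {n : ℕ} (c : ℝ) (f : ∀ i, (Fin n → Cfg (Fin 2) (F.Nn i)) → ℝ) (C : ℝ)
    (hf : ∀ i r, |f i r| ≤ C) : F.E (fun i r => c * f i r) = c * F.E f := by
  have h1 : (fun i => (F.S i).av (fun r => c * f i r)) = fun i => c * (F.S i).av (f i) := by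
    funext i
    exact RS.av_const_mul (F.S i) c (f i)
  unfold Fam.E
  rw [h1]
  exact ul_const_mul F.U c _ C (Fam1_bd F f C hf)

/-- constants -/
theorem E_const {n : ℕ} (c : ℝ) : F.E (n := n) (fun _ _ => c) = c := by
  have h1 : (fun i => (F.S i).av (n := n) (fun _ => c)) = fun _ => c := by
    funext i
    exact RS.av_const (F.S i) c
  unfold Fam.E
  rw [h1]
  exact ul_const F.U c

/-- monotonicity -/
theorem E_mono {n : ℕ} (f g : ∀ i, (Fin n → Cfg (Fin 2) (F.Nn i)) → ℝ) (C : ℝ)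
    (hf : ∀ i r, |f i r| ≤ C) (hg : ∀ i r, |g i r| ≤ C) (h : ∀ i r, f i r ≤ g i r) :
    F.E f ≤ F.E g :=
  ul_mono F.U _ _ C (Fam1_bd F f C hf) (Fam1_bd F g C hg)
    (Eventually.of_forall fun i => RS.av_mono (F.S i) (f i) (g i) (h i))

/-- nonnegativity -/
theorem E_nonneg {n : ℕ} (f : ∀ i, (Fin n → Cfg (Fin 2) (F.Nn i)) → ℝ) (C : ℝ)
    (hf : ∀ i r, |f i r| ≤ C) (h : ∀ i r, 0 ≤ f i r) : 0 ≤ F.E f :=
  ul_nonneg F.U _ C (Fam1_bd F f C hf) fun i => RS.av_nonneg (F.S i) (f i) (h i)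

/-- bound -/
theorem abs_E_le {n : ℕ} (f : ∀ i, (Fin n → Cfg (Fin 2) (F.Nn i)) → ℝ) (C : ℝ)
    (hf : ∀ i r, |f i r| ≤ C) : |F.E f| ≤ C :=
  abs_ul_le F.U _ C (Fam1_bd F f C hf)

/-- marginals -/
theorem E_marginal {n m : ℕ} (j : Fin m → Fin n) (hj : Function.Injective j)
    (f : ∀ i, (Fin m → Cfg (Fin 2) (F.Nn i)) → ℝ) :
    F.E (n := n) (fun i r => f i (fun l => r (j l))) = F.E f := by
  have h1 : (fun i => (F.S i).av (n := n) (fun r => f i (fun l => r (j l)))) =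
      fun i => (F.S i).av (f i) := by
    funext i
    exact RS.av_marginal (F.S i) j hj (f i)
  unfold Fam.E
  rw [h1]

/-- Cauchy-Schwarz in the limit -/
theorem E_cs {n : ℕ} (f g : ∀ i, (Fin n → Cfg (Fin 2) (F.Nn i)) → ℝ) (C : ℝ)
    (hf : ∀ i r, |f i r| ≤ C) (hg : ∀ i r, |g i r| ≤ C) :
    (F.E (fun i r => f i r * g i r)) ^ 2 ≤
      F.E (fun i r => f i r ^ 2) * F.E (fun i r => g i r ^ 2) := by
  have b1 : ∀ i r, |f i r * g i r| ≤ C * C := by
    intro i r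
    rw [abs_mul]
    exact mul_le_mul (hf i r) (hg i r) (abs_nonneg _) ((abs_nonneg _).trans (hf i r))
  have b2 : ∀ i r, |f i r ^ 2| ≤ C * C := by
    intro i r
    rw [pow_two, abs_mul]
    exact mul_le_mul (hf i r) (hf i r) (abs_nonneg _) ((abs_nonneg _).trans (hf i r))
  have b3 : ∀ i r, |g i r ^ 2| ≤ C * C := by
    intro i r
    rw [pow_two, abs_mul]
    exact mul_le_mul (hg i r) (hg i r) (abs_nonneg _) ((abs_nonneg _).trans (hg i r))
  have t1 := (tendsto_E F (fun i r => f i r * g i r) (C * C) b1).pow 2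
  have t2 := (tendsto_E F (fun i r => f i r ^ 2) (C * C) b2).mul
    (tendsto_E F (fun i r => g i r ^ 2) (C * C) b3)
  exact le_of_tendsto_of_tendsto' t1 t2 fun i => RS.av_cs (F.S i) (f i) (g i)

end Fam

end SKC
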