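import Pool.Agent.H.MP_08eaf3_pr.Sys

/-!
Basic lemmas on Gibbs weights `gw`.
-/

set_option autoImplicit false

open MeasureTheory ProbabilityTheory Filter Topology Matrix

namespace SKC

section GW

variable {Ω ι : Type} [Fintype Ω] [Fintype ι] (v : Ω → ι → ℝ) (a : Ω → ℝ)

/-- Gibbs weights are nonnegative. Proof: `exp > 0`, sums of exponentials are nonnegative (`div_nonneg`). -/
theorem gw_nonneg (x : ι → ℝ) (ω : Ω) : 0 ≤ gw v a x ω := by
  exact div_nonneg (Real.exp_pos _).le (Finset.sum_nonneg fun _ _ => (Real.exp_pos _).le)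

/-- Gibbs weights sum to one. Proof: `Finset.sum_div`, the denominator is positive (`Ω` nonempty). -/
theorem gw_sum [Nonempty Ω] (x : ι → ℝ) : ∑ ω, gw v a x ω = 1 := by
  unfold gw
  rw [← Finset.sum_div]
  exact div_self (Finset.sum_pos (fun _ _ => Real.exp_pos _) Finset.univ_nonempty).ne'

/-- Gibbs weights are at most one (`gw_sum` and nonnegativity, `Finset.single_le_sum`; if `Ω` has the element
`ω` it is nonempty). -/
theorem gw_le_one (x : ι → ℝ) (ω : Ω) : gw v a x ω ≤ 1 := by
  have : Nonempty Ω := ⟨ω⟩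
  rw [← gw_sum v a x]
  exact Finset.single_le_sum (f := fun ω => gw v a x ω) (fun ω' _ => gw_nonneg v a x ω')
    (Finset.mem_univ ω)

/-- Continuity in the disorder. Proof: `dot x (v ω) = ∑ i, x i * v ω i` is continuous in `x`, the
denominator is positive. -/
theorem gw_continuous (ω : Ω) : Continuous (fun x => gw v a x ω) := by
  have : Nonempty Ω := ⟨ω⟩
  have hd : ∀ ω' : Ω, Continuous fun x : ι → ℝ => Real.exp (dot x (v ω') + a ω') := by
    intro ω'
    unfold dot
    fun_prop
  exact (hd ω).div (continuous_finsetSum _ fun ω' _ => hd ω') fun x =>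
    (Finset.sum_pos (fun _ _ => Real.exp_pos _) Finset.univ_nonempty).ne'

/-- The sum of the products of the weights over all `n`-tuples of replicas is one.
Proof: `Finset.prod_univ_sum` / `Finset.sum_pow'`-type identity
`∑ r : Fin n → Ω, ∏ l, g (r l) = ∏ l, ∑ ω, g ω` (`Fintype.piFinset_univ`), and `gw_sum`. -/
theorem gw_prod_sum [Nonempty Ω] (x : ι → ℝ) (n : ℕ) :
    ∑ r : Fin n → Ω, ∏ l, gw v a x (r l) = 1 := by
  classical
  have h := Finset.prod_univ_sum (fun _ : Fin n => (Finset.univ : Finset Ω))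
    (fun _ ω => gw v a x ω)
  rw [Fintype.piFinset_univ] at h
  rw [← h]
  exact Finset.prod_eq_one fun _ _ => gw_sum v a x

end GW

end SKC
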