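import Pool.Agent.H.MP_08eaf3_pr.Sys.Fam1
import Pool.Agent.H.MP_08eaf3_pr.Sys.Ov

/-!
The Ghirlanda-Guerra identity in the limit of a family.
-/

set_option autoImplicit false

open MeasureTheory ProbabilityTheory Filter Topology Matrix

namespace SKC

namespace Fam

variable (F : Fam)

/-- a continuous function of the entries of overlap matrices is bounded -/
theorem Fam2_bd (ψ : ℝ × ℝ × ℝ → ℝ) (hψ : Continuous ψ) :
    ∃ B : ℝ, 0 ≤ B ∧ ∀ (N : ℕ) (ρ ρ' : Cfg (Fin 2) N), |ψ (Tv (ovM ρ ρ'))| ≤ B := by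
  have hK : IsCompact (Set.Icc (-1 : ℝ) 1 ×ˢ (Set.Icc (-1 : ℝ) 1 ×ˢ Set.Icc (-2 : ℝ) 2)) :=
    isCompact_Icc.prod (isCompact_Icc.prod isCompact_Icc)
  obtain ⟨B, hB⟩ := hK.exists_bound_of_continuousOn hψ.continuousOn
  refine ⟨|B|, abs_nonneg B, fun N ρ ρ' => ?_⟩
  have h00 := abs_le.mp (abs_ovM_le ρ ρ' 0 0)
  have h11 := abs_le.mp (abs_ovM_le ρ ρ' 1 1)
  have h01 := abs_le.mp (abs_ovM_le ρ ρ' 0 1)
  have h10 := abs_le.mp (abs_ovM_le ρ ρ' 1 0)
  have h := hB (Tv (ovM ρ ρ')) ⟨h00, h11, by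
    constructor
    · show -2 ≤ ovM ρ ρ' 0 1 + ovM ρ ρ' 1 0
      linarith [h01.1, h10.1]
    · show ovM ρ ρ' 0 1 + ovM ρ ρ' 1 0 ≤ 2
      linarith [h01.2, h10.2]⟩
  rw [Real.norm_eq_abs] at h
  exact h.trans (le_abs_self B)

/-- the identity for functions bounded by one -/
theorem Fam2_one (hF : F.IsGG) {n : ℕ} (l : Fin n) (f : ∀ i, (Fin n → Cfg (Fin 2) (F.Nn i)) → ℝ)
    (hf : ∀ i r, |f i r| ≤ 1) (ψ : ℝ × ℝ × ℝ → ℝ) (hψ : Continuous ψ) :
    (n : ℝ) * F.E (n := n + 1) (fun i r => f i (fun j => r j.castSucc) *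
        ψ (Tv (ovM (r l.castSucc) (r (Fin.last n))))) =
      F.E f * F.E (n := 2) (fun _ r => ψ (Tv (ovM (r 0) (r 1)))) +
        ∑ j ∈ Finset.univ.erase l, F.E (fun i r => f i r * ψ (Tv (ovM (r l) (r j)))) := by
  obtain ⟨B, hB0, hB⟩ := Fam2_bd ψ hψ
  have hprod : ∀ a b : ℝ, |a| ≤ 1 → |b| ≤ B → |a * b| ≤ B := by
    intro a b ha hb
    rw [abs_mul]
    calc |a| * |b| ≤ 1 * B := mul_le_mul ha hb (abs_nonneg b) zero_le_one
      _ = B := one_mul B
  have h1 := F.tendsto_E (n := n + 1) (fun i r => f i (fun j => r j.castSucc) *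
        ψ (Tv (ovM (r l.castSucc) (r (Fin.last n))))) B (fun i r => hprod _ _ (hf i _) (hB _ _ _))
  have h2 := F.tendsto_E f 1 hf
  have h3 := F.tendsto_E (n := 2) (fun _ r => ψ (Tv (ovM (r 0) (r 1)))) B (fun i r => hB _ _ _)
  have h4 : ∀ j ∈ Finset.univ.erase l, Tendsto (fun i => (F.S i).av (fun r => f i r * ψ (Tv (ovM (r l) (r j)))))
      F.U (𝓝 (F.E (fun i r => f i r * ψ (Tv (ovM (r l) (r j)))))) := fun j _ =>
    F.tendsto_E (fun i r => f i r * ψ (Tv (ovM (r l) (r j)))) B (fun i r => hprod _ _ (hf i _) (hB _ _ _))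
  have h5 := tendsto_finsetSum (Finset.univ.erase l) h4
  have h6 := ((h1.const_mul (n : ℝ)).sub (h2.mul h3)).sub h5
  have h7 := hF.gg n l f hf ψ hψ
  have h8 := tendsto_nhds_unique h6 h7
  linarith

/-- The Ghirlanda-Guerra identity in the limit, for functions bounded by `C`.
Proof: divide `f` by `C` (if `C ≤ 0` then `f = 0`), `IsGG.gg`, limits of the three terms with `tendsto_E`
(`ψ` is bounded on the compact set of the values of `T`: `|R00|, |R11| ≤ 1`, `|R01 + R10| ≤ 2` when the entries of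
the overlap matrix are bounded by one, so all the averages are bounded), uniqueness of limits. -/
theorem E_gg (hF : F.IsGG) {n : ℕ} (l : Fin n) (f : ∀ i, (Fin n → Cfg (Fin 2) (F.Nn i)) → ℝ)
    (C : ℝ) (hf : ∀ i r, |f i r| ≤ C) (ψ : ℝ × ℝ × ℝ → ℝ) (hψ : Continuous ψ) :
    (n : ℝ) * F.E (n := n + 1) (fun i r => f i (fun j => r j.castSucc) *
        ψ (Tv (ovM (r l.castSucc) (r (Fin.last n))))) =
      F.E f * F.E (n := 2) (fun _ r => ψ (Tv (ovM (r 0) (r 1)))) +
        ∑ j ∈ Finset.univ.erase l, F.E (fun i r => f i r * ψ (Tv (ovM (r l) (r j)))) := by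
  obtain ⟨B, hB0, hB⟩ := Fam2_bd ψ hψ
  set D : ℝ := max C 1 with hD
  have hD1 : 1 ≤ D := le_max_right C 1
  have hD0 : 0 < D := lt_of_lt_of_le zero_lt_one hD1
  have hg : ∀ i r, |f i r / D| ≤ 1 := by
    intro i r
    rw [abs_div, abs_of_pos hD0, div_le_one hD0]
    exact (hf i r).trans (le_max_left C 1)
  have hprod : ∀ a b : ℝ, |a| ≤ 1 → |b| ≤ B → |a * b| ≤ B := by
    intro a b ha hb
    rw [abs_mul]
    calc |a| * |b| ≤ 1 * B := mul_le_mul ha hb (abs_nonneg b) zero_le_one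
      _ = B := one_mul B
  have h := F.Fam2_one hF l (fun i r => f i r / D) hg ψ hψ
  have e1 : F.E (n := n + 1) (fun i r => f i (fun j => r j.castSucc) *
        ψ (Tv (ovM (r l.castSucc) (r (Fin.last n))))) =
      D * F.E (n := n + 1) (fun i r => f i (fun j => r j.castSucc) / D *
        ψ (Tv (ovM (r l.castSucc) (r (Fin.last n))))) := by
    rw [← F.E_const_mul D _ B (fun i r => hprod _ _ (hg i _) (hB _ _ _))]
    congr 1
    funext i r
    field_simp
  have e2 : F.E f = D * F.E (fun i r => f i r / D) := by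
    rw [← F.E_const_mul D _ 1 hg]
    congr 1
    funext i r
    field_simp
  have e3 : ∀ j, F.E (fun i r => f i r * ψ (Tv (ovM (r l) (r j)))) =
      D * F.E (fun i r => f i r / D * ψ (Tv (ovM (r l) (r j)))) := by
    intro j
    rw [← F.E_const_mul D _ B (fun i r => hprod _ _ (hg i _) (hB _ _ _))]
    congr 1
    funext i r
    field_simp
  rw [e1, e2, Finset.sum_congr rfl fun j _ => e3 j, ← Finset.mul_sum]
  calc (n : ℝ) * (D * F.E (n := n + 1) (fun i r => f i (fun j => r j.castSucc) / D *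
        ψ (Tv (ovM (r l.castSucc) (r (Fin.last n))))))
      = D * ((n : ℝ) * F.E (n := n + 1) (fun i r => f i (fun j => r j.castSucc) / D *
        ψ (Tv (ovM (r l.castSucc) (r (Fin.last n)))))) := by ring
    _ = _ := by
        rw [h]
        ring

end Fam

end SKC
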