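import Pool.Agent.H.MP_08eaf3_pr.Sys.Gw

/-!
Averages of replica systems `RS`: integrability, linearity, bounds.
-/

set_option autoImplicit false

open MeasureTheory ProbabilityTheory Filter Topology Matrix

namespace SKC

namespace RS

variable {N : ℕ} (S : RS N)

/-- The sum of the products of the weights over all `n`-tuples is one (as `gw_prod_sum`). -/
theorem prod_sum (x : S.X) (n : ℕ) :
    ∑ r : Fin n → Cfg (Fin 2) N, ∏ l, S.G x (r l) = 1 := by
  classical
  have h := Finset.prod_univ_sum (fun _ : Fin n => (Finset.univ : Finset (Cfg (Fin 2) N)))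
    (fun _ ω => S.G x ω)
  rw [Fintype.piFinset_univ] at h
  rw [← h]
  exact Finset.prod_eq_one fun _ _ => S.sum_one x

/-- The Gibbs weights are at most one. -/
theorem G_le_one (x : S.X) (ρ : Cfg (Fin 2) N) : S.G x ρ ≤ 1 := by
  rw [← S.sum_one x]
  exact Finset.single_le_sum (f := fun ω => S.G x ω) (fun ω' _ => S.nonneg x ω')
    (Finset.mem_univ ρ)

/-- The inner sum is bounded by the bound of `f`. Proof: triangle inequality and `prod_sum`. -/
theorem abs_inner_le {n : ℕ} (x : S.X) (f : (Fin n → Cfg (Fin 2) N) → ℝ) (C : ℝ)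
    (hf : ∀ r, |f r| ≤ C) :
    |∑ r : Fin n → Cfg (Fin 2) N, (∏ l, S.G x (r l)) * f r| ≤ C := by
  have h0 : ∀ r : Fin n → Cfg (Fin 2) N, 0 ≤ ∏ l, S.G x (r l) :=
    fun r => Finset.prod_nonneg fun l _ => S.nonneg x (r l)
  calc |∑ r : Fin n → Cfg (Fin 2) N, (∏ l, S.G x (r l)) * f r|
      ≤ ∑ r : Fin n → Cfg (Fin 2) N, |(∏ l, S.G x (r l)) * f r| :=
        Finset.abs_sum_le_sum_abs _ _
    _ ≤ ∑ r : Fin n → Cfg (Fin 2) N, (∏ l, S.G x (r l)) * C := by
        refine Finset.sum_le_sum fun r _ => ?_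
        rw [abs_mul, abs_of_nonneg (h0 r)]
        exact mul_le_mul_of_nonneg_left (hf r) (h0 r)
    _ = C := by rw [← Finset.sum_mul, S.prod_sum, one_mul]

/-- Integrability of the inner sum for bounded measurable functions of disorder and replicas.
Proof: a finite sum of products of measurable bounded functions, `abs_inner_le`, finite measure
(`Integrable.of_bound` or `Integrable.mono'`). -/
theorem integrable_inner {n : ℕ} (f : S.X → (Fin n → Cfg (Fin 2) N) → ℝ)
    (hm : ∀ r, Measurable (fun x => f x r)) (C : ℝ) (hC : ∀ x r, |f x r| ≤ C) :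
    Integrable (fun x => ∑ r : Fin n → Cfg (Fin 2) N, (∏ l, S.G x (r l)) * f x r) S.mu := by
  have hmeas : Measurable
      (fun x => ∑ r : Fin n → Cfg (Fin 2) N, (∏ l, S.G x (r l)) * f x r) :=
    Finset.measurable_sum _ fun r _ =>
      (Finset.measurable_prod _ fun l _ => S.meas (r l)).mul (hm r)
  refine Integrable.of_bound hmeas.aestronglyMeasurable C (ae_of_all _ fun x => ?_)
  rw [Real.norm_eq_abs]
  exact S.abs_inner_le x (f x) C (hC x)

/-- Integrability of the inner sum for functions of the replicas only (they are bounded because there are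
finitely many tuples). -/
theorem integrable_inner' {n : ℕ} (f : (Fin n → Cfg (Fin 2) N) → ℝ) :
    Integrable (fun x => ∑ r : Fin n → Cfg (Fin 2) N, (∏ l, S.G x (r l)) * f r) S.mu := by
  refine S.integrable_inner (fun _ r => f r) (fun _ => measurable_const)
    (∑ r : Fin n → Cfg (Fin 2) N, |f r|) (fun _ r => ?_)
  exact Finset.single_le_sum (f := fun r => |f r|) (fun _ _ => abs_nonneg _) (Finset.mem_univ r)

/-- additivity of `avx` for integrable inner sums -/
theorem avx_add {n : ℕ} (f g : S.X → (Fin n → Cfg (Fin 2) N) → ℝ)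
    (hf : Integrable (fun x => ∑ r : Fin n → Cfg (Fin 2) N, (∏ l, S.G x (r l)) * f x r) S.mu)
    (hg : Integrable (fun x => ∑ r : Fin n → Cfg (Fin 2) N, (∏ l, S.G x (r l)) * g x r) S.mu) :
    S.avx (fun x r => f x r + g x r) = S.avx f + S.avx g := by
  unfold RS.avx
  rw [← integral_add hf hg]
  refine integral_congr_ae (ae_of_all _ fun x => ?_)
  simp only
  rw [← Finset.sum_add_distrib]
  exact Finset.sum_congr rfl fun r _ => mul_add _ _ _

/-- additivity -/
theorem av_add {n : ℕ} (f g : (Fin n → Cfg (Fin 2) N) → ℝ) :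
    S.av (fun r => f r + g r) = S.av f + S.av g := by
  exact S.avx_add (fun _ r => f r) (fun _ r => g r) (S.integrable_inner' f)
    (S.integrable_inner' g)

/-- subtraction -/
theorem av_sub {n : ℕ} (f g : (Fin n → Cfg (Fin 2) N) → ℝ) :
    S.av (fun r => f r - g r) = S.av f - S.av g := by
  unfold RS.av RS.avx
  rw [← integral_sub (S.integrable_inner' f) (S.integrable_inner' g)]
  refine integral_congr_ae (ae_of_all _ fun x => ?_)
  simp only
  rw [← Finset.sum_sub_distrib]
  exact Finset.sum_congr rfl fun r _ => mul_sub _ _ _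

/-- scalar multiplication -/
theorem av_const_mul {n : ℕ} (c : ℝ) (f : (Fin n → Cfg (Fin 2) N) → ℝ) :
    S.av (fun r => c * f r) = c * S.av f := by
  unfold RS.av RS.avx
  rw [← integral_const_mul]
  refine integral_congr_ae (ae_of_all _ fun x => ?_)
  simp only
  rw [Finset.mul_sum]
  exact Finset.sum_congr rfl fun r _ => by ring

/-- finite sums -/
theorem av_sum {n : ℕ} {J : Type} (s : Finset J) (f : J → (Fin n → Cfg (Fin 2) N) → ℝ) :
    S.av (fun r => ∑ j ∈ s, f j r) = ∑ j ∈ s, S.av (f j) := by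
  classical
  induction s using Finset.induction_on with
  | empty =>
    unfold RS.av RS.avx
    simp
  | insert j s hj ih =>
    rw [Finset.sum_insert hj, ← ih, ← S.av_add]
    congr 1
    funext r
    rw [Finset.sum_insert hj]

/-- constants -/
theorem av_const {n : ℕ} (c : ℝ) : S.av (n := n) (fun _ => c) = c := by
  unfold RS.av RS.avx
  have h : ∀ x : S.X, ∑ r : Fin n → Cfg (Fin 2) N, (∏ l, S.G x (r l)) * c = c := by
    intro x
    rw [← Finset.sum_mul, S.prod_sum, one_mul]
  simp only [h]
  simp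

/-- positivity -/
theorem av_nonneg {n : ℕ} (f : (Fin n → Cfg (Fin 2) N) → ℝ) (hf : ∀ r, 0 ≤ f r) : 0 ≤ S.av f := by
  unfold RS.av RS.avx
  exact integral_nonneg fun x => Finset.sum_nonneg fun r _ =>
    mul_nonneg (Finset.prod_nonneg fun l _ => S.nonneg x (r l)) (hf r)

/-- monotonicity -/
theorem av_mono {n : ℕ} (f g : (Fin n → Cfg (Fin 2) N) → ℝ) (h : ∀ r, f r ≤ g r) :
    S.av f ≤ S.av g := by
  have h1 := S.av_nonneg (fun r => g r - f r) (fun r => sub_nonneg.2 (h r))
  rw [S.av_sub] at h1
  linarith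

/-- bound -/
theorem abs_av_le {n : ℕ} (f : (Fin n → Cfg (Fin 2) N) → ℝ) (C : ℝ) (h : ∀ r, |f r| ≤ C) :
    |S.av f| ≤ C := by
  rw [abs_le]
  constructor
  · have h1 := S.av_mono (fun _ => -C) f (fun r => (abs_le.1 (h r)).1)
    rwa [S.av_const] at h1
  · have h1 := S.av_mono f (fun _ => C) (fun r => (abs_le.1 (h r)).2)
    rwa [S.av_const] at h1

/-- bound of a difference -/
theorem abs_av_sub_le {n : ℕ} (f g : (Fin n → Cfg (Fin 2) N) → ℝ) :
    |S.av f - S.av g| ≤ S.av (fun r => |f r - g r|) := by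
  rw [← S.av_sub, abs_le]
  constructor
  · have h1 := S.av_mono (fun r => (-1) * |f r - g r|) (fun r => f r - g r) (fun r => by
      have := neg_abs_le (f r - g r)
      linarith)
    rw [S.av_const_mul] at h1
    linarith
  · exact S.av_mono _ _ fun r => le_abs_self _

end RS

end SKC
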