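import Pool.Agent.H.MP_08eaf3_pr.Sys.Rs1

/-!
Averages of replica systems `RS`: marginals, symmetry, the last replica.
-/

set_option autoImplicit false

open MeasureTheory ProbabilityTheory Filter Topology Matrix

namespace SKC

namespace RS

variable {N : ℕ} (S : RS N)

theorem Rs2_marg {ι κ Ω : Type*} [Fintype ι] [DecidableEq ι] [Fintype κ] [DecidableEq κ]
    [Fintype Ω] (w : Ω → ℝ) (hw : ∑ ω, w ω = 1) (j : κ → ι) (hj : Function.Injective j)
    (f : (κ → Ω) → ℝ) :
    ∑ r : ι → Ω, (∏ i, w (r i)) * f (fun l => r (j l)) = ∑ s : κ → Ω, (∏ l, w (s l)) * f s := by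
  classical
  have key : ∀ s : κ → Ω, ∑ r : ι → Ω, (∏ i, w (r i)) *
      (if (fun l => r (j l)) = s then (1 : ℝ) else 0) = ∏ l, w (s l) := by
    intro s
    obtain ⟨g, hg⟩ : ∃ g : ι → Ω → ℝ, g = Function.extend j
        (fun l => fun ω => if ω = s l then (1 : ℝ) else 0) (fun _ => fun _ => 1) := ⟨_, rfl⟩
    have g1 : ∀ l ω, g (j l) ω = if ω = s l then (1 : ℝ) else 0 := by
      intro l ω
      rw [hg, hj.extend_apply]
    have g2 : ∀ i, i ∉ Set.range j → ∀ ω, g i ω = 1 := by
      intro i hi ω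
      rw [hg, Function.extend_apply' _ _ _ hi]
    have e1 : ∀ r : ι → Ω, (if (fun l => r (j l)) = s then (1 : ℝ) else 0) =
        ∏ i, g i (r i) := by
      intro r
      rw [← Fintype.prod_of_injective j hj (fun l => if r (j l) = s l then (1 : ℝ) else 0)
        (fun i => g i (r i)) (fun i hi => g2 i hi _) (fun l => (g1 l _).symm)]
      rw [Finset.prod_ite_zero]
      simp only [Finset.mem_univ, true_implies, Finset.prod_const_one, funext_iff]
    simp only [e1]
    have e2 : ∀ r : ι → Ω, (∏ i, w (r i)) * ∏ i, g i (r i) = ∏ i, (w (r i) * g i (r i)) :=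
      fun r => Finset.prod_mul_distrib.symm
    simp only [e2]
    have e3 : ∑ r : ι → Ω, ∏ i, (w (r i) * g i (r i)) = ∏ i, ∑ ω, w ω * g i ω := by
      rw [Finset.prod_univ_sum, Fintype.piFinset_univ]
    rw [e3]
    symm
    apply Fintype.prod_of_injective j hj
    · intro i hi
      simp only [g2 i hi, mul_one]
      exact hw
    · intro l
      simp only [g1, mul_ite, mul_one, mul_zero, Finset.sum_ite_eq', Finset.mem_univ, if_true]
  have e4 : ∀ r : ι → Ω, (∏ i, w (r i)) * f (fun l => r (j l)) =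
      ∑ s, ((∏ i, w (r i)) * (if (fun l => r (j l)) = s then (1 : ℝ) else 0)) * f s := by
    intro r
    simp only [mul_ite, mul_one, mul_zero, ite_mul, zero_mul, Finset.sum_ite_eq, Finset.mem_univ,
      if_true]
  simp only [e4]
  rw [Finset.sum_comm]
  refine Finset.sum_congr rfl fun s _ => ?_
  rw [← Finset.sum_mul, key s]

/-- Marginals: a function of the replicas `r ∘ j`, `j` injective, has the same average.
Proof: for every `x`, `∑ r : Fin n → Ω, (∏ l, G (r l)) * f (r ∘ j) = ∑ s : Fin m → Ω, (∏ l, G (s l)) * f s`: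
split the product over `Set.range j` and its complement and sum over the other coordinates first (each sum is
one). A convenient way: the inner sum is the integral of `f ∘ (· ∘ j)` against the product measure, or use
`Equiv.piEquivPiSubtypeProd` with the predicate `l ∈ Set.range j` and `Equiv.ofInjective`. -/
theorem av_marginal {n m : ℕ} (j : Fin m → Fin n) (hj : Function.Injective j)
    (f : (Fin m → Cfg (Fin 2) N) → ℝ) :
    S.av (n := n) (fun r => f (fun l => r (j l))) = S.av f := by
  unfold RS.av RS.avx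
  refine integral_congr_ae (Filter.Eventually.of_forall fun x => ?_)
  exact Rs2_marg (S.G x) (S.sum_one x) j hj f

/-- Symmetry between replicas. Special case of `av_marginal`. -/
theorem av_perm {n : ℕ} (e : Equiv.Perm (Fin n)) (f : (Fin n → Cfg (Fin 2) N) → ℝ) :
    S.av (fun r => f (fun l => r (e l))) = S.av f := by
  exact S.av_marginal e e.injective f

/-- Averaging the last replica first: for a function of `n+1` replicas.
Proof: `Fin.snocEquiv`/`Fin.consEquiv`-type bijection `(Fin n → Ω) × Ω ≃ (Fin (n+1) → Ω)`, and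
`Fin.prod_univ_castSucc`. -/
theorem avx_succ {n : ℕ} (f : S.X → (Fin (n + 1) → Cfg (Fin 2) N) → ℝ) :
    S.avx f = S.avx (n := n) (fun x r => ∑ ρ : Cfg (Fin 2) N, S.G x ρ * f x (Fin.snoc r ρ)) := by
  unfold RS.avx
  refine integral_congr_ae (Filter.Eventually.of_forall fun x => ?_)
  show ∑ r : Fin (n + 1) → Cfg (Fin 2) N, (∏ l, S.G x (r l)) * f x r =
    ∑ r : Fin n → Cfg (Fin 2) N, (∏ l, S.G x (r l)) *
      ∑ ρ : Cfg (Fin 2) N, S.G x ρ * f x (Fin.snoc r ρ)
  rw [← (Fin.snocEquiv (fun _ : Fin (n + 1) => Cfg (Fin 2) N)).sum_comp, Fintype.sum_prod_type,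
    Finset.sum_comm]
  refine Finset.sum_congr rfl fun r _ => ?_
  rw [Finset.mul_sum]
  refine Finset.sum_congr rfl fun ρ _ => ?_
  have e : Fin.snocEquiv (fun _ : Fin (n + 1) => Cfg (Fin 2) N) (ρ, r) =
      (Fin.snoc r ρ : Fin (n + 1) → Cfg (Fin 2) N) := rfl
  rw [e, Fin.prod_univ_castSucc]
  simp only [Fin.snoc_castSucc, Fin.snoc_last]
  ring

end RS

end SKC
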