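import Pool.Agent.H.MP_08eaf3_pr.Sys.Fam2

/-!
Limits along ultrafilters, families of replica systems: all lemmas.
-/
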